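import Pool.Agent.Q216.PT.Tensor

set_option autoImplicit false

/-!
# MP_9d720b_co : primitive tensors of maximal primitive degree

A nonnegative tensor of order `m = k + 1 ≥ 2` and dimension `n ≥ 2` is primitive with primitive
degree `(n-1)^2 + 1` if and only if, after a relabelling of the indices, its zero pattern is
extremal: the majorization matrix has the zero pattern of the Wielandt matrix `W_n`, and every
positive entry `b_{i i_2 ... i_m}` satisfies `i + 1 ∈ {i_2,...,i_m}` for `i ≤ n - 2`,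
`{n, 1} ∩ {i_2,...,i_m} ≠ ∅` for `i = n - 1` and `{1, 2} ∩ {i_2,...,i_m} ≠ ∅` for `i = n`.
-/

namespace Pool.Agent.Results.MP_9d720b_co.ExtremalTensors

open Pool.Agent.Q216.PT

theorem result (n k : ℕ) (hn : 2 ≤ n) (hk : 1 ≤ k) (A : (Fin (k + 1) → Fin n) → ℝ)
    (hA : ∀ t, 0 ≤ A t) :
    (Primitive A ∧ primDegree A = (n - 1) ^ 2 + 1) ↔
      ∃ σ : Equiv.Perm (Fin n), ExtremalPattern fun t => A (σ ∘ t) :=
  main hn hk A hA

end Pool.Agent.Results.MP_9d720b_co.ExtremalTensors
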